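import Mathlib

/-!
# MP_f4f39d_al: Leonard triples extending the `sl₂` Krawtchouk Leonard pair

Negative answer to Q2 for every `d ≥ 1`.
-/

set_option autoImplicit false

namespace Pool.Agent.Results.MP_f4f39d_al.CommutatorNotSpan

open Polynomial Module

section defs

variable {K : Type*} [Field K]

/-- A square matrix is irreducible tridiagonal: the entries `(i, j)` with `|i - j| > 1` are zero
and the entries with `|i - j| = 1` are nonzero. -/
def IrredTridiag {n : ℕ} (M : Matrix (Fin n) (Fin n) K) : Prop :=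
  ∀ i j : Fin n,
    (((i : ℕ) + 1 < (j : ℕ) ∨ (j : ℕ) + 1 < (i : ℕ)) → M i j = 0) ∧
    (((i : ℕ) + 1 = (j : ℕ) ∨ (j : ℕ) + 1 = (i : ℕ)) → M i j ≠ 0)

/-- There is a basis of `Kⁿ` (the columns of an invertible matrix `P`, with inverse `Q`) in which
`X` is represented by a diagonal matrix, and `Y` and `Z` are each represented by irreducible
tridiagonal matrices. -/
def DiagWith {n : ℕ} (X Y Z : Matrix (Fin n) (Fin n) K) : Prop :=
  ∃ P Q : Matrix (Fin n) (Fin n) K, P * Q = 1 ∧ (Q * X * P).IsDiag ∧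
    IrredTridiag (Q * Y * P) ∧ IrredTridiag (Q * Z * P)

/-- Leonard triples on `Kⁿ`. -/
def IsLeonardTriple {n : ℕ} (X Y Z : Matrix (Fin n) (Fin n) K) : Prop :=
  DiagWith X Y Z ∧ DiagWith Y X Z ∧ DiagWith Z X Y

variable (K)

/-- The matrix `A` of the problem: `A_{i,i+1} = d - i`, `A_{i+1,i} = i + 1`, all other entries
zero. -/
def kA (d : ℕ) : Matrix (Fin (d + 1)) (Fin (d + 1)) K := fun i j =>
  if (j : ℕ) = (i : ℕ) + 1 then (d : K) - ((i : ℕ) : K)
  else if (i : ℕ) = (j : ℕ) + 1 then ((j : ℕ) : K) + 1 else 0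

/-- The matrix `A* = diag(d, d - 2, …, -d)` of the problem. -/
def kB (d : ℕ) : Matrix (Fin (d + 1)) (Fin (d + 1)) K :=
  Matrix.diagonal fun i => (d : K) - 2 * ((i : ℕ) : K)

variable {K}

/-- The commutator `[X, Y]`. -/
def br {n : ℕ} (X Y : Matrix (Fin n) (Fin n) K) : Matrix (Fin n) (Fin n) K := X * Y - Y * X

/-- `Y` lies in the linear span of `I, A, A*, C`. -/
def InSpan {d : ℕ} (Y C : Matrix (Fin (d + 1)) (Fin (d + 1)) K) : Prop :=
  Y ∈ Submodule.span K {1, kA K d, kB K d, C}

/-- `α I + β A + γ A* + δ [A, A*]` -/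
def fam (d : ℕ) (α β γ δ : K) : Matrix (Fin (d + 1)) (Fin (d + 1)) K :=
  α • 1 + β • kA K d + γ • kB K d + δ • br (kA K d) (kB K d)

/-- `4 δ²` is different from each of `β² + γ²`, `β²`, `γ²`. -/
def Generic (β γ δ : K) : Prop :=
  4 * δ ^ 2 ≠ β ^ 2 + γ ^ 2 ∧ 4 * δ ^ 2 ≠ β ^ 2 ∧ 4 * δ ^ 2 ≠ γ ^ 2

/-- None of the three commutators `[A, A*]`, `[A*, C]`, `[C, A]` lies in the span of
`I, A, A*, C`. -/
def NoneInSpan {d : ℕ} (C : Matrix (Fin (d + 1)) (Fin (d + 1)) K) : Prop :=
  ¬ InSpan (br (kA K d) (kB K d)) C ∧ ¬ InSpan (br (kB K d) C) C ∧ ¬ InSpan (br C (kA K d)) C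

/-- The action of a general element `(a, b, c)` of `sl₂`. -/
def M (d : ℕ) (a b c : K) : Matrix (Fin (d + 1)) (Fin (d + 1)) K := fun i j =>
  (if (j : ℕ) = (i : ℕ) then a * ((d : K) - 2 * ((i : ℕ) : K)) else 0) +
  (if (j : ℕ) = (i : ℕ) + 1 then b * ((d : K) - ((i : ℕ) : K)) else 0) +
  (if (i : ℕ) = (j : ℕ) + 1 then c * ((i : ℕ) : K) else 0)

end defs

section proofs

variable {K : Type*} [Field K]

theorem kA_eq (d : ℕ) : kA K d = M d 0 1 1 := by
  ext i j
  unfold kA M
  by_cases h1 : (j : ℕ) = (i : ℕ) + 1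
  · have h2 : ¬ (i : ℕ) = (j : ℕ) + 1 := by omega
    have h3 : ¬ (j : ℕ) = (i : ℕ) := by omega
    simp only [if_pos h1, if_neg h2, if_neg h3]; ring
  · by_cases h2 : (i : ℕ) = (j : ℕ) + 1
    · simp only [if_neg h1, if_pos h2]
      rw [h2]; push_cast
      split_ifs <;> ring
    · simp only [if_neg h1, if_neg h2]
      split_ifs <;> ring

theorem kB_eq (d : ℕ) : kB K d = M d 1 0 0 := by
  ext i j
  unfold kB M
  by_cases h : i = j
  · subst h
    simp
  · have h3 : ¬ (j : ℕ) = (i : ℕ) := by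
      intro e; exact h (Fin.ext e.symm)
    simp [Matrix.diagonal_apply_ne _ h, h3]

theorem M_add (d : ℕ) (a b c a' b' c' : K) : M d a b c + M d a' b' c' = M d (a + a') (b + b') (c + c') := by
  ext i j
  simp only [M, Matrix.add_apply]
  split_ifs <;> ring

theorem M_smul (d : ℕ) (t a b c : K) : t • M d a b c = M d (t * a) (t * b) (t * c) := by
  ext i j
  simp only [M, Matrix.smul_apply, smul_eq_mul]
  split_ifs <;> ring

/-- commutators of `A` and `A*` -/
theorem comm_AB (d : ℕ) : kA K d * kB K d - kB K d * kA K d = M d 0 (-2) 2 := by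
  ext i j
  rw [Matrix.sub_apply, kB, Matrix.mul_diagonal, Matrix.diagonal_mul]
  rw [kA_eq]
  unfold M
  by_cases h1 : (j : ℕ) = (i : ℕ) + 1
  · have h2 : ¬ (i : ℕ) = (j : ℕ) + 1 := by omega
    have h3 : ¬ (j : ℕ) = (i : ℕ) := by omega
    simp only [if_pos h1, if_neg h2, if_neg h3]; rw [h1]; push_cast; ring
  · by_cases h2 : (i : ℕ) = (j : ℕ) + 1
    · have h3 : ¬ (j : ℕ) = (i : ℕ) := by omega
      simp only [if_neg h1, if_pos h2, if_neg h3]
      rw [h2]; push_cast
      ring
    · simp only [if_neg h1, if_neg h2]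
      split_ifs <;> ring

/-- The vector of binomially normalised coefficients. -/
noncomputable def vec (d : ℕ) (g : K[X]) : Fin (d + 1) → K := fun i => g.coeff i / (d.choose i : K)

theorem vec_add (d : ℕ) (g h : K[X]) : vec d (g + h) = vec d g + vec d h := by
  ext i; simp [vec, add_div]

theorem vec_C_mul (d : ℕ) (t : K) (h : K[X]) : vec d (C t * h) = t • vec d h := by
  ext i; simp [vec, mul_div_assoc]

theorem choose_ne [CharZero K] {d i : ℕ} (h : i ≤ d) : (d.choose i : K) ≠ 0 := by
  exact_mod_cast (Nat.choose_pos h).ne'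

theorem vec_ne_zero [CharZero K] {d : ℕ} {g : K[X]} (hg : g ≠ 0) (hd : g.natDegree ≤ d) :
    vec d g ≠ 0 := by
  intro h
  have h1 := congrFun h ⟨g.natDegree, by omega⟩
  simp only [vec, Pi.zero_apply, div_eq_zero_iff] at h1
  rcases h1 with h1 | h1
  · exact hg (Polynomial.leadingCoeff_eq_zero.mp h1)
  · exact choose_ne hd h1

/-- the differential operator -/
noncomputable def R (d : ℕ) (a b c : K) (g : K[X]) : K[X] :=
  (C (d * a) + C (d * c) * X) * g + (C b - C (2 * a) * X - C c * X ^ 2) * derivative g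

theorem M_mulVec [CharZero K] (d : ℕ) (a b c : K) (g : K[X]) (hg : g.natDegree ≤ d) :
    (M d a b c).mulVec (vec d g) = vec d (R d a b c g) := by
  ext i
  have hi : (i : ℕ) ≤ d := by omega
  have hsum : (M d a b c).mulVec (vec d g) i = ∑ j ∈ Finset.range (d + 1),
      (((if j = (i : ℕ) then a * ((d : K) - 2 * ((i : ℕ) : K)) else 0) +
      (if j = (i : ℕ) + 1 then b * ((d : K) - ((i : ℕ) : K)) else 0) +
      (if (i : ℕ) = j + 1 then c * ((i : ℕ) : K) else 0)) * (g.coeff j / (d.choose j : K))) := by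
    rw [← Fin.sum_univ_eq_sum_range]
    rfl
  rw [hsum]
  simp only [add_mul, ite_mul, zero_mul, Finset.sum_add_distrib]
  rw [Finset.sum_ite_eq', Finset.sum_ite_eq', if_pos (by simp; omega)]
  obtain ⟨k, hk⟩ : ∃ k, k = (i : ℕ) := ⟨_, rfl⟩
  rw [← hk] at hi ⊢
  have hc : vec d (R d a b c g) i = (R d a b c g).coeff k / (d.choose k : K) := by rw [hk]; rfl
  rw [hc]
  have hR : (R d a b c g).coeff k = d * a * g.coeff k + b * ((k + 1) * g.coeff (k + 1))
      - 2 * a * (k * g.coeff k) +
      (if k = 0 then 0 else (c * ((d : K) - ((k : K) - 1)) * g.coeff (k - 1))) := by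
    unfold R
    rcases k with _ | k
    · simp [add_mul, sub_mul, mul_assoc, coeff_derivative, mul_coeff_zero]
    · rcases k with _ | k
      · simp [add_mul, sub_mul, mul_assoc, coeff_X_mul, coeff_X_pow_mul', coeff_derivative]
        ring
      · simp [add_mul, sub_mul, mul_assoc, coeff_X_mul, coeff_X_pow_mul', coeff_derivative]
        ring
  rw [hR]
  have h2 : (if k + 1 ∈ Finset.range (d + 1) then b * ((d : K) - (k : K)) *
      (g.coeff (k + 1) / (d.choose (k + 1) : K)) else 0)
      = b * ((k + 1) * g.coeff (k + 1)) / (d.choose k : K) := by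
    by_cases hkd : k < d
    · rw [if_pos (by simp; omega)]
      have e := Nat.choose_succ_right_eq d k
      have e' : (d.choose (k + 1) : K) * ((k : K) + 1) = (d.choose k : K) * ((d : K) - (k : K)) := by
        rw [← Nat.cast_sub hkd.le]
        exact_mod_cast e
      have n1 : (d.choose (k + 1) : K) ≠ 0 := choose_ne hkd
      have n2 : (d.choose k : K) ≠ 0 := choose_ne hkd.le
      field_simp
      linear_combination (-b * g.coeff (k + 1)) * e'
    · rw [if_neg (by simp; omega)]
      have : g.coeff (k + 1) = 0 := coeff_eq_zero_of_natDegree_lt (by omega)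
      simp [this]
  rw [h2]
  have h3 : (∑ x ∈ Finset.range (d + 1), if k = x + 1 then c * (k : K) *
      (g.coeff x / (d.choose x : K)) else 0) =
      (if k = 0 then 0 else (c * ((d : K) - ((k : K) - 1)) * g.coeff (k - 1))) / (d.choose k : K) := by
    rcases k with _ | k
    · simp
    · have : ∀ x : ℕ, (if k + 1 = x + 1 then c * ((k + 1 : ℕ) : K) *
        (g.coeff x / (d.choose x : K)) else 0) = (if x = k then c * ((k + 1 : ℕ) : K) *
        (g.coeff x / (d.choose x : K)) else 0) := by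
        intro x
        by_cases hx : x = k
        · simp [hx]
        · rw [if_neg (by omega), if_neg hx]
      simp only [this]
      rw [Finset.sum_ite_eq', if_pos (by simp; omega), if_neg (by omega)]
      have e := Nat.choose_succ_right_eq d k
      have hkd : k < d := by omega
      have e' : (d.choose (k + 1) : K) * ((k : K) + 1) = (d.choose k : K) * ((d : K) - (k : K)) := by
        rw [← Nat.cast_sub hkd.le]
        exact_mod_cast e
      have n1 : (d.choose (k + 1) : K) ≠ 0 := choose_ne hkd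
      have n2 : (d.choose k : K) ≠ 0 := choose_ne hkd.le
      have hk1 : k + 1 - 1 = k := rfl
      rw [hk1]
      push_cast
      field_simp
      linear_combination (c * g.coeff k) * e'
  rw [h3]
  ring

/-- the vectors `P^(d-j) Q^j` -/
noncomputable def vv (d : ℕ) (p r q s : K) (j : ℕ) : Fin (d + 1) → K :=
  vec d ((C p + C r * X) ^ (d - j) * (C q + C s * X) ^ j)

theorem deg_le (p r q s : K) (m j : ℕ) :
    ((C p + C r * X) ^ m * (C q + C s * X) ^ j).natDegree ≤ m + j := by
  have h : ∀ p r : K, (C p + C r * X).natDegree ≤ 1 := by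
    intro p r
    have := natDegree_linear_le (a := r) (b := p)
    rwa [add_comm] at this
  refine natDegree_mul_le.trans (add_le_add ?_ ?_)
  · refine natDegree_pow_le.trans ?_
    calc m * _ ≤ m * 1 := Nat.mul_le_mul_left _ (h _ _)
      _ = m := by ring
  · refine natDegree_pow_le.trans ?_
    calc j * _ ≤ j * 1 := Nat.mul_le_mul_left _ (h _ _)
      _ = j := by ring

/-- the action in the basis `P^(d-j) Q^j` -/
theorem R_apply (d : ℕ) (a b c p r q s α γ β δ : K)
    (h1 : a * p + b * r = α * p + γ * q) (h2 : c * p - a * r = α * r + γ * s)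
    (h3 : a * q + b * s = β * p + δ * q) (h4 : c * q - a * s = β * r + δ * s)
    (m j : ℕ) (hd : m + j = d) :
    R d a b c ((C p + C r * X) ^ m * (C q + C s * X) ^ j) =
      C ((m : K) * α + j * δ) * ((C p + C r * X) ^ m * (C q + C s * X) ^ j) +
      C ((m : K) * γ) * ((C p + C r * X) ^ (m - 1) * (C q + C s * X) ^ (j + 1)) +
      C ((j : K) * β) * ((C p + C r * X) ^ (m + 1) * (C q + C s * X) ^ (j - 1)) := by
  have e1 : C a * C p + C b * C r = C α * C p + C γ * C q := by
    rw [← C_mul, ← C_mul, ← C_mul, ← C_mul, ← C_add, ← C_add, h1]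
  have e2 : C c * C p - C a * C r = C α * C r + C γ * C s := by
    rw [← C_mul, ← C_mul, ← C_mul, ← C_mul, ← C_sub, ← C_add, h2]
  have e3 : C a * C q + C b * C s = C β * C p + C δ * C q := by
    rw [← C_mul, ← C_mul, ← C_mul, ← C_mul, ← C_add, ← C_add, h3]
  have e4 : C c * C q - C a * C s = C β * C r + C δ * C s := by
    rw [← C_mul, ← C_mul, ← C_mul, ← C_mul, ← C_sub, ← C_add, h4]
  unfold R
  subst hd
  have hder : ∀ (p r : K) (n : ℕ), derivative ((C p + C r * X) ^ n) =
      C (n : K) * (C p + C r * X) ^ (n - 1) * C r := by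
    intro p r n
    rw [derivative_pow]
    simp
  rw [derivative_mul, hder, hder]
  have key1 : (C a + C c * X) * (C p + C r * X) + (C b - C (2 * a) * X - C c * X ^ 2) * C r =
      C α * (C p + C r * X) + C γ * (C q + C s * X) := by
    have : (C (2 * a) : K[X]) = 2 * C a := by rw [two_mul, C_add, two_mul]
    rw [this]
    linear_combination e1 + X * e2
  have key2 : (C a + C c * X) * (C q + C s * X) + (C b - C (2 * a) * X - C c * X ^ 2) * C s =
      C β * (C p + C r * X) + C δ * (C q + C s * X) := by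
    have : (C (2 * a) : K[X]) = 2 * C a := by rw [two_mul, C_add, two_mul]
    rw [this]
    linear_combination e3 + X * e4
  have c1 : (C (((m + j : ℕ) : K) * a) : K[X]) = (C (m : K) + C (j : K)) * C a := by
    rw [← C_add, ← C_mul]; push_cast; ring_nf
  have c2 : (C (((m + j : ℕ) : K) * c) : K[X]) = (C (m : K) + C (j : K)) * C c := by
    rw [← C_add, ← C_mul]; push_cast; ring_nf
  rw [c1, c2]
  simp only [C_add, C_mul] at key1 key2 ⊢
  generalize hP : C p + C r * X = P at *
  generalize hQ : C q + C s * X = Q at *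
  rcases m with _ | m
  · rcases j with _ | j
    · simp
    · simp only [Nat.cast_zero, C_0, Nat.zero_sub, pow_zero, Nat.add_sub_cancel]
      linear_combination (C ((j + 1 : ℕ) : K) * Q ^ j) * key2
  · rcases j with _ | j
    · simp only [Nat.cast_zero, C_0, Nat.zero_sub, pow_zero, Nat.add_sub_cancel]
      linear_combination (C ((m + 1 : ℕ) : K) * P ^ m) * key1
    · simp only [Nat.add_sub_cancel]
      linear_combination (C ((m + 1 : ℕ) : K) * P ^ m * Q ^ (j + 1)) * key1 +
        (C ((j + 1 : ℕ) : K) * P ^ (m + 1) * Q ^ j) * key2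

/-- the element `(a, b, c)` of `sl₂` acts on the span of `P = (p, r)`, `Q = (q, s)` by
`P ↦ α P + γ Q`, `Q ↦ β P + δ Q` -/
structure Act (p r q s a b c α γ β δ : K) : Prop where
  h1 : a * p + b * r = α * p + γ * q
  h2 : c * p - a * r = α * r + γ * s
  h3 : a * q + b * s = β * p + δ * q
  h4 : c * q - a * s = β * r + δ * s

theorem act [CharZero K] (d : ℕ) {p r q s a b c α γ β δ : K} (h : Act p r q s a b c α γ β δ) (t : K)
    (j : ℕ) (hj : j ≤ d) :
    Matrix.toLin' (t • 1 + M d a b c) (vv d p r q s j) =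
      (t + ((d : K) - j) * α + j * δ) • vv d p r q s j +
      (((d : K) - j) * γ) • vv d p r q s (j + 1) + ((j : K) * β) • vv d p r q s (j - 1) := by
  obtain ⟨m, rfl⟩ : ∃ m, d = m + j := ⟨d - j, by omega⟩
  have e1 : m + j - j = m := by omega
  have e2 : m + j - (j + 1) = m - 1 := by omega
  rw [Matrix.toLin'_apply, Matrix.add_mulVec, Matrix.smul_mulVec, Matrix.one_mulVec]
  have hdeg : ((C p + C r * X) ^ m * (C q + C s * X) ^ j).natDegree ≤ m + j := deg_le p r q s m j
  have hv : vv (m + j) p r q s j = vec (m + j) ((C p + C r * X) ^ m * (C q + C s * X) ^ j) := by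
    unfold vv; rw [e1]
  have hv1 : vv (m + j) p r q s (j + 1) =
      vec (m + j) ((C p + C r * X) ^ (m - 1) * (C q + C s * X) ^ (j + 1)) := by
    unfold vv; rw [e2]
  rw [hv1, hv, M_mulVec _ _ _ _ _ hdeg, R_apply (m + j) a b c p r q s α γ β δ h.1 h.2 h.3 h.4 m j rfl,
    vec_add, vec_add, vec_C_mul, vec_C_mul, vec_C_mul]
  have hz : ((j : K) * β) • vec (m + j) ((C p + C r * X) ^ (m + 1) * (C q + C s * X) ^ (j - 1)) =
      ((j : K) * β) • vv (m + j) p r q s (j - 1) := by
    rcases j with _ | j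
    · simp
    · unfold vv
      have : m + (j + 1) - (j + 1 - 1) = m + 1 := by omega
      rw [this]
  rw [hz]
  push_cast
  module

theorem lin_ne {p r : K} (h : p ≠ 0 ∨ r ≠ 0) : (C p + C r * X : K[X]) ≠ 0 := by
  intro e
  rcases h with h | h
  · apply h
    have := congrArg (fun f => coeff f 0) e
    simpa using this
  · apply h
    have := congrArg (fun f => coeff f 1) e
    simpa [coeff_C] using this

theorem vv_ne [CharZero K] (d : ℕ) {p r q s : K} (hP : p ≠ 0 ∨ r ≠ 0) (hQ : q ≠ 0 ∨ s ≠ 0)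
    (j : ℕ) (hj : j ≤ d) : vv d p r q s j ≠ 0 := by
  unfold vv
  refine vec_ne_zero (mul_ne_zero (pow_ne_zero _ (lin_ne hP)) (pow_ne_zero _ (lin_ne hQ))) ?_
  refine (deg_le p r q s _ _).trans ?_
  omega

theorem li [CharZero K] (d : ℕ) {p r q s a b c α δ : K} (h : Act p r q s a b c α 0 0 δ)
    (hne : α ≠ δ) (hP : p ≠ 0 ∨ r ≠ 0) (hQ : q ≠ 0 ∨ s ≠ 0) :
    LinearIndependent K (fun i : Fin (d + 1) => vv d p r q s i) := by
  refine Module.End.eigenvectors_linearIndependent' (Matrix.toLin' ((0 : K) • 1 + M d a b c))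
    (fun i : Fin (d + 1) => (0 : K) + ((d : K) - (i : ℕ)) * α + (i : ℕ) * δ) ?_ _ ?_
  · intro i j hij
    simp only at hij
    have : (((i : ℕ) : K) - ((j : ℕ) : K)) * (δ - α) = 0 := by linear_combination hij
    rcases mul_eq_zero.mp this with h | h
    · have h' : ((i : ℕ) : K) = ((j : ℕ) : K) := by linear_combination h
      exact Fin.ext (by exact_mod_cast h')
    · exact absurd (by linear_combination -h) hne
  · intro i
    rw [Module.End.hasEigenvector_iff]
    refine ⟨?_, vv_ne d hP hQ _ (by omega)⟩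
    rw [Module.End.mem_eigenspace_iff, act d h 0 _ (by omega)]
    simp

/-- entries of an operator in a basis -/
theorem entry {d : ℕ} (bs : Basis (Fin (d + 1)) K (Fin (d + 1) → K)) (v : ℕ → Fin (d + 1) → K)
    (hb : ∀ i : Fin (d + 1), bs i = v i) (T : (Fin (d + 1) → K) →ₗ[K] (Fin (d + 1) → K))
    (x y z : ℕ → K) (hT : ∀ j, j ≤ d → T (v j) = x j • v j + (((d : K) - j) * y j) • v (j + 1) +
      ((j : K) * z j) • v (j - 1)) (i j : Fin (d + 1)) :
    LinearMap.toMatrix bs bs T i j = (if (i : ℕ) = j then x j else 0) +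
      (if (i : ℕ) = j + 1 then ((d : K) - j) * y j else 0) +
      (if (i : ℕ) + 1 = j then (j : K) * z j else 0) := by
  have hrep : ∀ w : ℕ, w ≤ d → bs.repr (v w) i = if (i : ℕ) = w then 1 else 0 := by
    intro w hw
    have := hb ⟨w, by omega⟩
    simp only at this
    rw [← this, Basis.repr_self, Finsupp.single_apply]
    by_cases h : (i : ℕ) = w
    · rw [if_pos h, if_pos (Fin.ext h.symm)]
    · rw [if_neg h, if_neg]
      intro e; apply h; rw [← e]
  rw [LinearMap.toMatrix_apply, hb, hT _ (by omega)]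
  simp only [map_add, map_smul, Finsupp.add_apply, Finsupp.smul_apply, smul_eq_mul]
  rw [hrep _ (by omega), hrep ((j : ℕ) - 1) (by omega)]
  have t1 : ((d : K) - ((j : ℕ) : K)) * y j * bs.repr (v ((j : ℕ) + 1)) i =
      if (i : ℕ) = j + 1 then ((d : K) - j) * y j else 0 := by
    by_cases hj : (j : ℕ) < d
    · rw [hrep _ (by omega)]; simp
    · have : (j : ℕ) = d := by omega
      rw [this]
      simp
  rw [t1]
  have t2 : (((j : ℕ) : K)) * z j * (if (i : ℕ) = (j : ℕ) - 1 then (1 : K) else 0) =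
      if (i : ℕ) + 1 = j then (j : K) * z j else 0 := by
    by_cases hj : (j : ℕ) = 0
    · simp [hj]
    · by_cases h : (i : ℕ) = (j : ℕ) - 1
      · rw [if_pos h, if_pos (by omega), mul_one]
      · rw [if_neg h, if_neg (by omega), mul_zero]
  rw [t2]
  simp

theorem irred_of [CharZero K] {d : ℕ} (bs : Basis (Fin (d + 1)) K (Fin (d + 1) → K)) {p r q s : K}
    (hb : ∀ i : Fin (d + 1), bs i = vv d p r q s i) {a b c α γ β δ : K}
    (h : Act p r q s a b c α γ β δ) (hγ : γ ≠ 0) (hβ : β ≠ 0) (t : K) :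
    IrredTridiag (LinearMap.toMatrix bs bs (Matrix.toLin' (t • 1 + M d a b c))) := by
  intro i j
  rw [entry bs _ hb _ (fun j => t + ((d : K) - j) * α + j * δ) (fun _ => γ) (fun _ => β)
    (fun j hj => act d h t j hj)]
  constructor
  · intro hij
    rw [if_neg (by omega), if_neg (by omega), if_neg (by omega)]
    simp
  · rintro (hij | hij)
    · rw [if_neg (by omega), if_neg (by omega), if_pos hij]
      rw [zero_add, zero_add]
      refine mul_ne_zero ?_ hβ
      have : (j : ℕ) ≠ 0 := by omega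
      exact_mod_cast this
    · rw [if_neg (by omega), if_pos (by omega), if_neg (by omega)]
      rw [zero_add, add_zero]
      refine mul_ne_zero ?_ hγ
      intro e
      have : (d : K) = ((j : ℕ) : K) := by linear_combination e
      have : d = (j : ℕ) := by exact_mod_cast this
      omega

theorem diag_of [CharZero K] {d : ℕ} (bs : Basis (Fin (d + 1)) K (Fin (d + 1) → K)) {p r q s : K}
    (hb : ∀ i : Fin (d + 1), bs i = vv d p r q s i) {a b c α δ : K}
    (h : Act p r q s a b c α 0 0 δ) (t : K) :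
    (LinearMap.toMatrix bs bs (Matrix.toLin' (t • 1 + M d a b c))).IsDiag := by
  intro i j hij
  rw [entry bs _ hb _ (fun j => t + ((d : K) - j) * α + j * δ) (fun _ => 0) (fun _ => 0)
    (fun j hj => act d h t j hj)]
  have : ¬ (i : ℕ) = (j : ℕ) := fun e => hij (Fin.ext e)
  rw [if_neg this]
  simp

theorem diagWith [CharZero K] (d : ℕ) {p r q s : K} (hP : p ≠ 0 ∨ r ≠ 0) (hQ : q ≠ 0 ∨ s ≠ 0)
    {a b c α δ : K} (h : Act p r q s a b c α 0 0 δ) (hne : α ≠ δ)
    {a' b' c' α' γ' β' δ' : K} (h' : Act p r q s a' b' c' α' γ' β' δ') (hγ' : γ' ≠ 0) (hβ' : β' ≠ 0)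
    {a'' b'' c'' α'' γ'' β'' δ'' : K} (h'' : Act p r q s a'' b'' c'' α'' γ'' β'' δ'')
    (hγ'' : γ'' ≠ 0) (hβ'' : β'' ≠ 0) (t t' t'' : K) :
    DiagWith (t • 1 + M d a b c) (t' • 1 + M d a' b' c') (t'' • 1 + M d a'' b'' c'') := by
  have hli := li d h hne hP hQ
  have hcard : Fintype.card (Fin (d + 1)) = Module.finrank K (Fin (d + 1) → K) := by simp
  let bs := basisOfLinearIndependentOfCardEqFinrank hli hcard
  have hb : ∀ i : Fin (d + 1), bs i = vv d p r q s i := by
    intro i
    simp [bs]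
  have hconv : ∀ X : Matrix (Fin (d + 1)) (Fin (d + 1)) K,
      bs.toMatrix (Pi.basisFun K (Fin (d + 1))) * X * (Pi.basisFun K (Fin (d + 1))).toMatrix bs =
        LinearMap.toMatrix bs bs (Matrix.toLin' X) := by
    intro X
    have e := basis_toMatrix_mul_linearMap_toMatrix_mul_basis_toMatrix
      (b' := Pi.basisFun K (Fin (d + 1))) (b := bs) (c' := Pi.basisFun K (Fin (d + 1))) (c := bs)
      (f := Matrix.toLin' X)
    rw [LinearMap.toMatrix_eq_toMatrix', LinearMap.toMatrix'_toLin'] at e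
    exact e
  refine ⟨(Pi.basisFun K (Fin (d + 1))).toMatrix bs, bs.toMatrix (Pi.basisFun K (Fin (d + 1))),
    Basis.toMatrix_mul_toMatrix_flip _ _, ?_, ?_, ?_⟩
  · rw [hconv]; exact diag_of bs hb h t
  · rw [hconv]; exact irred_of bs hb h' hγ' hβ' t'
  · rw [hconv]; exact irred_of bs hb h'' hγ'' hβ'' t''

theorem triple [CharZero K] (d : ℕ) {α β γ δ τ : K} (hτ : τ * τ = β ^ 2 + γ ^ 2 - δ ^ 2)
    (hτ0 : τ ≠ 0) (h1 : δ ^ 2 ≠ β ^ 2) (h2 : δ ^ 2 ≠ γ ^ 2) :
    IsLeonardTriple ((0 : K) • 1 + M d 0 1 1) ((0 : K) • 1 + M d 1 0 0)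
      (α • 1 + M d γ (β + δ) (β - δ)) := by
  have n1 : β + δ ≠ 0 := by
    intro e; apply h1; linear_combination (δ - β) * e
  have n2 : β - δ ≠ 0 := by
    intro e; apply h1; linear_combination (-δ - β) * e
  have n3 : γ + δ ≠ 0 := by
    intro e; apply h2; linear_combination (δ - γ) * e
  have n4 : γ - δ ≠ 0 := by
    intro e; apply h2; linear_combination (-δ - γ) * e
  have two : (2 : K) ≠ 0 := two_ne_zero
  refine ⟨?_, ?_, ?_⟩
  · -- basis for `A`: P = 1 + X, Q = 1 - X
    refine diagWith d (p := 1) (r := 1) (q := 1) (s := -1) (by simp) (by simp)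
      (α := 1) (δ := -1) ⟨by ring, by ring, by ring, by ring⟩ ?_
      (α' := 0) (γ' := 1) (β' := 1) (δ' := 0) ⟨by ring, by ring, by ring, by ring⟩
      one_ne_zero one_ne_zero
      (α'' := β) (γ'' := γ + δ) (β'' := γ - δ) (δ'' := -β) ⟨by ring, by ring, by ring, by ring⟩
      n3 n4 _ _ _
    intro e
    apply two
    linear_combination e
  · -- the standard basis
    refine diagWith d (p := 1) (r := 0) (q := 0) (s := 1) (by simp) (by simp)
      (α := 1) (δ := -1) ⟨by ring, by ring, by ring, by ring⟩ ?_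
      (α' := 0) (γ' := 1) (β' := 1) (δ' := 0) ⟨by ring, by ring, by ring, by ring⟩
      one_ne_zero one_ne_zero
      (α'' := γ) (γ'' := β - δ) (β'' := β + δ) (δ'' := -γ) ⟨by ring, by ring, by ring, by ring⟩
      n2 n1 _ _ _
    intro e
    apply two
    linear_combination e
  · -- P = (β + δ, τ - γ), Q = (β + δ, -τ - γ)
    have hα : τ ≠ -τ := by
      intro e
      apply hτ0
      have : 2 * τ = 0 := by linear_combination e
      exact (mul_eq_zero.mp this).resolve_left two
    -- action of `A`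
    have hA : Act (β + δ) (τ - γ) (β + δ) (-τ - γ) 0 1 1 (β / τ)
        ((τ * (τ - γ) - β * (β + δ)) / (τ * (β + δ))) ((-τ * (τ + γ) + β * (β + δ)) / (τ * (β + δ)))
        (-β / τ) := by
      refine ⟨?_, ?_, ?_, ?_⟩
      · field_simp
        ring
      · field_simp
        linear_combination τ * hτ
      · field_simp
        ring
      · field_simp
        linear_combination τ * hτ
    have hB : Act (β + δ) (τ - γ) (β + δ) (-τ - γ) 1 0 0 (γ / τ) (1 - γ / τ) (1 + γ / τ)
        (-γ / τ) := by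
      refine ⟨?_, ?_, ?_, ?_⟩
      · ring
      · field_simp
        ring
      · ring
      · field_simp
        ring
    have hC : Act (β + δ) (τ - γ) (β + δ) (-τ - γ) γ (β + δ) (β - δ) τ 0 0 (-τ) := by
      refine ⟨?_, ?_, ?_, ?_⟩
      · ring
      · linear_combination -hτ
      · ring
      · linear_combination -hτ
    have hprod : (τ * (τ - γ) - β * (β + δ)) * (-τ * (τ + γ) + β * (β + δ)) =
        (β + δ) ^ 2 * ((γ + δ) * (γ - δ)) := by
      linear_combination (-(β ^ 2 + γ ^ 2 - δ ^ 2) - τ ^ 2 + γ ^ 2 + 2 * β * (β + δ)) * hτ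
    have hne : (β + δ) ^ 2 * ((γ + δ) * (γ - δ)) ≠ 0 :=
      mul_ne_zero (pow_ne_zero _ n1) (mul_ne_zero n3 n4)
    rw [← hprod] at hne
    have hτγ : (τ - γ) * (τ + γ) ≠ 0 := by
      have : (τ - γ) * (τ + γ) = (β + δ) * (β - δ) := by linear_combination hτ
      rw [this]
      exact mul_ne_zero n1 n2
    refine diagWith d (p := β + δ) (r := τ - γ) (q := β + δ) (s := -τ - γ) (Or.inl n1) (Or.inl n1)
      hC hα hA ?_ ?_ hB ?_ ?_ _ _ _
    · exact div_ne_zero (left_ne_zero_of_mul hne) (mul_ne_zero hτ0 n1)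
    · exact div_ne_zero (right_ne_zero_of_mul hne) (mul_ne_zero hτ0 n1)
    · intro e
      apply left_ne_zero_of_mul hτγ
      field_simp at e
      linear_combination e
    · intro e
      apply right_ne_zero_of_mul hτγ
      field_simp at e
      linear_combination e

theorem comm_notMem [CharZero K] (d : ℕ) (hd : 1 ≤ d) (α β γ : K) :
    kA K d * kB K d - kB K d * kA K d ∉
      Submodule.span K {1, kA K d, kB K d, α • 1 + β • kA K d + γ • kB K d} := by
  intro h
  have h' : kA K d * kB K d - kB K d * kA K d ∈ Submodule.span K {1, kA K d, kB K d} := by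
    refine (Submodule.span_le.mpr ?_) h
    have m1 : (1 : Matrix (Fin (d + 1)) (Fin (d + 1)) K) ∈
        Submodule.span K {1, kA K d, kB K d} := Submodule.subset_span (by simp)
    have m2 : kA K d ∈ Submodule.span K {1, kA K d, kB K d} := Submodule.subset_span (by simp)
    have m3 : kB K d ∈ Submodule.span K {1, kA K d, kB K d} := Submodule.subset_span (by simp)
    rintro x (rfl | rfl | rfl | rfl)
    · exact m1
    · exact m2
    · exact m3
    · exact Submodule.add_mem _ (Submodule.add_mem _ (Submodule.smul_mem _ _ m1)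
        (Submodule.smul_mem _ _ m2)) (Submodule.smul_mem _ _ m3)
  rw [Submodule.mem_span_triple] at h'
  obtain ⟨x, y, z, hxyz⟩ := h'
  rw [comm_AB, kA_eq, kB_eq] at hxyz
  have e1 := congrFun (congrFun hxyz ⟨0, by omega⟩) ⟨1, by omega⟩
  have e2 := congrFun (congrFun hxyz ⟨1, by omega⟩) ⟨0, by omega⟩
  have hdK : (d : K) ≠ 0 := by
    have : d ≠ 0 := by omega
    exact_mod_cast this
  simp [M] at e1 e2
  have e3 : (y + 2) * d = 0 := by linear_combination e1
  have e4 : y + 2 = 0 := (mul_eq_zero.mp e3).resolve_right hdK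
  have : (4 : K) = 0 := by linear_combination e4 - e2
  exact (by norm_num : (4 : K) ≠ 0) this

theorem expand [CharZero K] (d : ℕ) (α β γ δ : K) :
    α • 1 + β • kA K d + γ • kB K d + δ • (kA K d * kB K d - kB K d * kA K d) =
      α • 1 + M d γ (β + -2 * δ) (β - -2 * δ) := by
  rw [comm_AB, kA_eq, kB_eq, M_smul, M_smul, M_smul, add_assoc, add_assoc, M_add, M_add]
  congr 2 <;> ring

end proofs

/-- **Q2 fails for every `d ≥ 1`, and a four-parameter family of Leonard triples for Q1.** -/
theorem result (K : Type*) [Field K] [IsAlgClosed K] [CharZero K] (d : ℕ) :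
    (∀ α β γ δ : K, Generic β γ δ → IsLeonardTriple (kA K d) (kB K d) (fam d α β γ δ)) ∧
    (1 ≤ d → ∀ α β γ : K, Generic β γ 0 → NoneInSpan (fam d α β γ 0)) ∧
    (1 ≤ d → ∃ C : Matrix (Fin (d + 1)) (Fin (d + 1)) K,
      IsLeonardTriple (kA K d) (kB K d) C ∧ NoneInSpan C) := by
  have main : ∀ α β γ δ : K, Generic β γ δ →
      IsLeonardTriple (kA K d) (kB K d) (fam d α β γ δ) := by
    rintro α β γ δ ⟨h0, h1, h2⟩
    obtain ⟨τ, hτ⟩ := IsAlgClosed.exists_pow_nat_eq (β ^ 2 + γ ^ 2 - (-2 * δ) ^ 2) (n := 2) two_pos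
    have hτ0 : τ ≠ 0 := by
      rintro rfl
      apply h0
      linear_combination hτ
    have := triple (K := K) d (α := α) (β := β) (γ := γ) (δ := -2 * δ) (τ := τ)
      (by rw [← hτ]; ring) hτ0
      (by intro e; apply h1; linear_combination e) (by intro e; apply h2; linear_combination e)
    unfold fam br
    rw [expand, kA_eq, kB_eq]
    simpa using this
  have second : 1 ≤ d → ∀ α β γ : K, Generic β γ 0 → NoneInSpan (fam d α β γ 0) := by
    rintro hd α β γ ⟨-, hβ', hγ'⟩
    have hβ : β ≠ 0 := by rintro rfl; exact hβ' (by ring)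
    have hγ : γ ≠ 0 := by rintro rfl; exact hγ' (by ring)
    obtain ⟨C, hC⟩ : ∃ C, C = fam d α β γ 0 := ⟨_, rfl⟩
    rw [← hC]
    have hC' : C = α • 1 + β • kA K d + γ • kB K d := by
      rw [hC]; unfold fam; rw [zero_smul, add_zero]
    have hnot := comm_notMem d hd α β γ
    rw [← hC'] at hnot
    unfold NoneInSpan InSpan br
    refine ⟨hnot, ?_, ?_⟩
    · intro h
      apply hnot
      have e : kB K d * C - C * kB K d = (-β) • (kA K d * kB K d - kB K d * kA K d) := by
        rw [hC']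
        simp only [mul_add, add_mul, Matrix.mul_smul, Matrix.smul_mul, mul_one, one_mul]
        module
      rw [e] at h
      exact (Submodule.smul_mem_iff _ (neg_ne_zero.mpr hβ)).mp h
    · intro h
      apply hnot
      have e : C * kA K d - kA K d * C = (-γ) • (kA K d * kB K d - kB K d * kA K d) := by
        rw [hC']
        simp only [mul_add, add_mul, Matrix.mul_smul, Matrix.smul_mul, mul_one, one_mul]
        module
      rw [e] at h
      exact (Submodule.smul_mem_iff _ (neg_ne_zero.mpr hγ)).mp h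
  have hgen : Generic (3 : K) 4 0 := by
    refine ⟨?_, ?_, ?_⟩ <;> norm_num
  exact ⟨main, second, fun hd => ⟨_, main 0 3 4 0 hgen, second hd 0 3 4 hgen⟩⟩

end Pool.Agent.Results.MP_f4f39d_al.CommutatorNotSpan
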